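import Pool.Agent.Q145.SZ.Stm2

set_option autoImplicit false

/-! The major arcs (project SZ). -/

namespace Pool.Agent.Q272.SZ

open Finset Filter Complex MeasureTheory
open Pool.Agent.H807R2.Dav (ee norm_ee ee_add)
open Pool.Agent.Q145.SZ

lemma continuous_ee : Continuous ee := by
  unfold ee
  fun_prop

/-- subadditivity of the integral of a nonnegative function over finite unions -/
lemma setIntegral_biUnion_le {ι : Type*} [DecidableEq ι] (s : Finset ι) (t : ι → Set ℝ) (f : ℝ → ℝ) (hf : ∀ x, 0 ≤ f x)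
    (ht : ∀ i ∈ s, MeasurableSet (t i)) (hi : ∀ i ∈ s, IntegrableOn f (t i)) :
    ∫ x in ⋃ i ∈ s, t i, f x ≤ ∑ i ∈ s, ∫ x in t i, f x := by
  induction s using Finset.induction_on with
  | empty => simp
  | insert a s ha ih =>
    rw [Finset.set_biUnion_insert, Finset.sum_insert ha]
    have hU : MeasurableSet (⋃ i ∈ s, t i) :=
      Finset.measurableSet_biUnion s fun i hi => ht i (mem_insert_of_mem hi)
    have hIU : IntegrableOn f (⋃ i ∈ s, t i) :=
      (integrableOn_finset_iUnion).2 fun i hi' => hi i (mem_insert_of_mem hi')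
    have hIa := hi a (mem_insert_self a s)
    have e1 : t a ∪ (⋃ i ∈ s, t i) = t a ∪ ((⋃ i ∈ s, t i) \ t a) := by
      rw [Set.union_sdiff_self]
    rw [e1, setIntegral_union Set.disjoint_sdiff_right (hU.diff (ht a (mem_insert_self a s))) hIa
      (hIU.mono_set Set.sdiff_subset)]
    refine add_le_add le_rfl (le_trans ?_ (ih (fun i hi' => ht i (mem_insert_of_mem hi'))
      (fun i hi' => hi i (mem_insert_of_mem hi'))))
    exact setIntegral_mono_set hIU (ae_of_all _ fun x => hf x) (Filter.Eventually.of_forall fun x hx => hx.1)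

/-- the arc around `r / q` -/
def arc (δ : ℝ) (i : ℕ × ℕ) : Set ℝ := Set.Icc ((i.2 : ℝ) / i.1 - δ) ((i.2 : ℝ) / i.1 + δ)

/-- reduced fractions in `[0, 1)` -/
def frs (F : ℕ) : Finset (ℕ × ℕ) := (Icc 1 F).biUnion fun q => ((range q).filter fun r => r.Coprime q).image fun r => (q, r)

lemma maj_cover (Q W X : ℕ) (hX : 0 < X) (hQ : 1 ≤ Q) (hW : 1 ≤ W) (hQX : Q * W < X) :
    Set.Icc (0 : ℝ) 1 ∩ Maj Q W X ⊆ ⋃ i ∈ insert ((1 : ℕ), (1 : ℕ)) (frs (Q * W)), arc ((Q * W : ℕ) / (X : ℝ)) i := by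
  rintro α ⟨⟨h0, h1⟩, q, hq1, hqQ, k, hk⟩
  have hXr : (0 : ℝ) < X := by exact_mod_cast hX
  have hqr : (1 : ℝ) ≤ q := by exact_mod_cast hq1
  have hWr : (1 : ℝ) ≤ W := by exact_mod_cast hW
  have hD1 : (1 : ℝ) ≤ (q : ℝ) * W := by nlinarith
  have hD0 : (0 : ℝ) < (q : ℝ) * W := by linarith
  have hlt : (W : ℝ) * Q / X < 1 := by
    rw [div_lt_one hXr]
    have : ((Q * W : ℕ) : ℝ) < X := by exact_mod_cast hQX
    push_cast at this
    linarith
  have hk' := abs_le.1 hk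
  have hk0 : 0 ≤ k := by
    by_contra hcon
    have h2 : k ≤ -1 := by omega
    have h3 : (k : ℝ) ≤ -1 := by exact_mod_cast h2
    have h4 : 0 ≤ (q : ℝ) * W * α := by positivity
    linarith [hk'.2]
  have hkD : k ≤ (q * W : ℕ) := by
    by_contra hcon
    have h2 : ((q * W : ℕ) : ℤ) + 1 ≤ k := by omega
    have h3 : (q : ℝ) * W + 1 ≤ k := by exact_mod_cast h2
    have h4 : (q : ℝ) * W * α ≤ (q : ℝ) * W := mul_le_of_le_one_right hD0.le h1
    linarith [hk'.1]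
  obtain ⟨m, rfl⟩ := Int.eq_ofNat_of_zero_le hk0
  have hmD : m ≤ q * W := by exact_mod_cast hkD
  have hDpos : 0 < q * W := Nat.mul_pos hq1 hW
  -- reduce the fraction
  obtain ⟨g, hg⟩ : ∃ g, g = Nat.gcd m (q * W) := ⟨_, rfl⟩
  have hg0 : 0 < g := by rw [hg]; exact Nat.gcd_pos_of_pos_right _ hDpos
  obtain ⟨a, ha⟩ : g ∣ m := by rw [hg]; exact Nat.gcd_dvd_left _ _
  obtain ⟨b, hb⟩ : g ∣ q * W := by rw [hg]; exact Nat.gcd_dvd_right _ _
  have hcop : a.Coprime b := by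
    have h2 : Nat.gcd (g * a) (g * b) = g := by rw [← ha, ← hb, ← hg]
    rw [Nat.gcd_mul_left] at h2
    exact Nat.eq_of_mul_eq_mul_left hg0 (by rw [h2, mul_one])
  have hb0 : 0 < b := by
    rcases Nat.eq_zero_or_pos b with h | h
    · rw [h, mul_zero] at hb; omega
    · exact h
  have hbF : b ≤ Q * W := by
    calc b ≤ g * b := Nat.le_mul_of_pos_left b hg0
      _ = q * W := hb.symm
      _ ≤ Q * W := Nat.mul_le_mul_right W hqQ
  have hab : a ≤ b := by
    have : g * a ≤ g * b := by rw [← ha, ← hb]; exact hmD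
    exact Nat.le_of_mul_le_mul_left this hg0
  have hfr : (m : ℝ) / ((q : ℝ) * W) = (a : ℝ) / b := by
    have e1 : (m : ℝ) = g * a := by exact_mod_cast ha
    have e2 : (q : ℝ) * W = g * b := by exact_mod_cast hb
    rw [e1, e2]
    have : (g : ℝ) ≠ 0 := by exact_mod_cast hg0.ne'
    exact mul_div_mul_left _ _ this
  have hdist : |α - (a : ℝ) / b| ≤ ((Q * W : ℕ) : ℝ) / X := by
    rw [← hfr]
    have e1 : α - (m : ℝ) / ((q : ℝ) * W) = ((q : ℝ) * W * α - m) / ((q : ℝ) * W) := by field_simp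
    rw [e1, abs_div, abs_of_pos hD0]
    rw [Int.cast_natCast] at hk
    calc |(q : ℝ) * W * α - m| / ((q : ℝ) * W) ≤ |(q : ℝ) * W * α - m| := div_le_self (abs_nonneg _) hD1
      _ ≤ (W : ℝ) * Q / X := hk
      _ = ((Q * W : ℕ) : ℝ) / X := by push_cast; ring
  have harc : α ∈ arc ((Q * W : ℕ) / (X : ℝ)) (b, a) := by
    have := abs_le.1 hdist
    unfold arc
    exact ⟨by linarith [this.1], by linarith [this.2]⟩
  rw [Set.mem_iUnion₂]
  refine ⟨(b, a), ?_, harc⟩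
  rcases hab.lt_or_eq with h | h
  · apply mem_insert_of_mem
    unfold frs
    rw [mem_biUnion]
    exact ⟨b, mem_Icc.2 ⟨hb0, hbF⟩, mem_image.2 ⟨a, mem_filter.2 ⟨mem_range.2 h, hcop⟩, rfl⟩⟩
  · have : b = 1 := by
      rw [h, Nat.coprime_self] at hcop
      exact hcop
    rw [h, this]
    exact mem_insert_self _ _

lemma sum_frs (F : ℕ) (f : ℕ × ℕ → ℝ) :
    ∑ i ∈ frs F, f i = ∑ q ∈ Icc 1 F, ∑ r ∈ (range q).filter (fun r => r.Coprime q), f (q, r) := by
  unfold frs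
  rw [Finset.sum_biUnion]
  · refine Finset.sum_congr rfl fun q _ => ?_
    rw [Finset.sum_image]
    intro a _ b _ h
    exact (Prod.mk.inj h).2
  · intro q _ q' _ hqq
    change Disjoint _ _
    rw [Finset.disjoint_left]
    intro i hi hi'
    obtain ⟨a, -, rfl⟩ := mem_image.1 hi
    obtain ⟨b, -, h⟩ := mem_image.1 hi'
    exact hqq (Prod.mk.inj h).1.symm

lemma arc_int (f : ℝ → ℝ) (δ : ℝ) (hδ : 0 ≤ δ) (i : ℕ × ℕ) :
    ∫ α in arc δ i, f α = ∫ β in (-δ)..δ, f ((i.2 : ℝ) / i.1 + β) := by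
  unfold arc
  rw [integral_Icc_eq_integral_Ioc, ← intervalIntegral.integral_of_le (by linarith),
    intervalIntegral.integral_comp_add_left (fun x => f x) ((i.2 : ℝ) / i.1), sub_eq_add_neg]

/-- the sum over all reduced fractions dominates the integral over the major arcs -/
lemma maj_int (Q W X : ℕ) (hX : 0 < X) (hQ : 1 ≤ Q) (hW : 1 ≤ W) (hQX : Q * W < X) (f : ℝ → ℝ) (hf : ∀ x, 0 ≤ f x)
    (hc : Continuous f) (hper : ∀ x, f (x + 1) = f x) :
    ∫ α in Set.Icc (0 : ℝ) 1 ∩ Maj Q W X, f α ≤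
      2 * ∑ q ∈ Icc 1 (Q * W), ∑ r ∈ (range q).filter (fun r => r.Coprime q),
        ∫ β in (-((Q * W : ℕ) / (X : ℝ)))..((Q * W : ℕ) / (X : ℝ)), f ((r : ℝ) / q + β) := by
  classical
  obtain ⟨δ, hδ⟩ : ∃ δ : ℝ, δ = (Q * W : ℕ) / (X : ℝ) := ⟨_, rfl⟩
  have hδ0 : 0 ≤ δ := by rw [hδ]; positivity
  have hcov := maj_cover Q W X hX hQ hW hQX
  rw [← hδ] at hcov ⊢
  have hint : ∀ i : ℕ × ℕ, IntegrableOn f (arc δ i) := fun i => hc.continuousOn.integrableOn_Icc
  have hmeas : ∀ i : ℕ × ℕ, MeasurableSet (arc δ i) := fun i => measurableSet_Icc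
  have hIU : IntegrableOn f (⋃ i ∈ insert ((1 : ℕ), (1 : ℕ)) (frs (Q * W)), arc δ i) :=
    (integrableOn_finset_iUnion).2 fun i _ => hint i
  have h1 : ∫ α in Set.Icc (0 : ℝ) 1 ∩ Maj Q W X, f α ≤ ∫ α in ⋃ i ∈ insert ((1 : ℕ), (1 : ℕ)) (frs (Q * W)), arc δ i, f α :=
    setIntegral_mono_set hIU (ae_of_all _ fun x => hf x) (Filter.Eventually.of_forall fun x hx => hcov hx)
  have h2 := setIntegral_biUnion_le (insert ((1 : ℕ), (1 : ℕ)) (frs (Q * W))) (arc δ) f hf (fun i _ => hmeas i) (fun i _ => hint i)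
  have h3 : ∑ i ∈ insert ((1 : ℕ), (1 : ℕ)) (frs (Q * W)), ∫ α in arc δ i, f α ≤
      (∫ α in arc δ (1, 1), f α) + ∑ i ∈ frs (Q * W), ∫ α in arc δ i, f α := by
    by_cases hmem : ((1 : ℕ), (1 : ℕ)) ∈ frs (Q * W)
    · rw [Finset.insert_eq_of_mem hmem]
      have : 0 ≤ ∫ α in arc δ (1, 1), f α := integral_nonneg hf
      linarith
    · rw [Finset.sum_insert hmem]
  have h4 : ∑ i ∈ frs (Q * W), ∫ α in arc δ i, f α =
      ∑ q ∈ Icc 1 (Q * W), ∑ r ∈ (range q).filter (fun r => r.Coprime q), ∫ β in (-δ)..δ, f ((r : ℝ) / q + β) := by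
    rw [Finset.sum_congr rfl fun i _ => arc_int f δ hδ0 i, sum_frs]
  have h5 : ∫ α in arc δ (1, 1), f α = ∫ β in (-δ)..δ, f (((0 : ℕ) : ℝ) / (1 : ℕ) + β) := by
    rw [arc_int f δ hδ0]
    refine intervalIntegral.integral_congr fun β _ => ?_
    change f (((1 : ℕ) : ℝ) / ((1 : ℕ) : ℝ) + β) = f (((0 : ℕ) : ℝ) / ((1 : ℕ) : ℝ) + β)
    rw [← hper (((0 : ℕ) : ℝ) / ((1 : ℕ) : ℝ) + β)]
    congr 1
    push_cast
    ring
  have hnn : ∀ q r : ℕ, 0 ≤ ∫ β in (-δ)..δ, f ((r : ℝ) / q + β) := fun q r =>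
    intervalIntegral.integral_nonneg (by linarith) fun β _ => hf _
  have h6 : ∫ α in arc δ (1, 1), f α ≤
      ∑ q ∈ Icc 1 (Q * W), ∑ r ∈ (range q).filter (fun r => r.Coprime q), ∫ β in (-δ)..δ, f ((r : ℝ) / q + β) := by
    rw [h5]
    have hm1 : 1 ∈ Icc 1 (Q * W) := mem_Icc.2 ⟨le_rfl, Nat.mul_pos hQ hW⟩
    refine le_trans ?_ (Finset.single_le_sum (f := fun q : ℕ => ∑ r ∈ (range q).filter (fun r => r.Coprime q),
      ∫ β in (-δ)..δ, f ((r : ℝ) / q + β)) (fun q _ => Finset.sum_nonneg fun r _ => hnn q r) hm1)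
    have hm0 : 0 ∈ (range 1).filter (fun r => r.Coprime 1) := by simp
    exact Finset.single_le_sum (f := fun r : ℕ => ∫ β in (-δ)..δ, f ((r : ℝ) / (1 : ℕ) + β)) (fun r _ => hnn 1 r) hm0
  linarith

lemma continuous_trig (s : Finset ℕ) (c : ℕ → ℂ) : Continuous fun α : ℝ => ∑ u ∈ s, c u * ee (u * α) := by
  refine continuous_finset_sum _ fun u _ => ?_
  exact continuous_const.mul (continuous_ee.comp (continuous_const.mul continuous_id))

lemma ee_nat_mul_add_one (u : ℕ) (x : ℝ) : ee (u * (x + 1)) = ee (u * x) := by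
  rw [mul_add, mul_one]
  exact_mod_cast Pool.Agent.H807R2.Dav.ee_add_int (u * x) (u : ℤ)

lemma sq_sub_le (x y : ℂ) : ‖x - y‖ ^ 2 ≤ 2 * ‖x‖ ^ 2 + 2 * ‖y‖ ^ 2 := by
  have h1 := norm_sub_le x y
  have h2 := norm_nonneg (x - y)
  have h3 : ‖x - y‖ ^ 2 ≤ (‖x‖ + ‖y‖) ^ 2 := by gcongr
  nlinarith [sq_nonneg (‖x‖ - ‖y‖)]

end Pool.Agent.Q272.SZ

namespace Pool.Agent.Q145.SZ

open Finset Filter Complex MeasureTheory
open Pool.Agent.H807R2.Dav (ee)
open Pool.Agent.Q272.SZ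

theorem t_MAJ : S_MAJ := by
  intro hGS hMODB
  obtain ⟨CG, hCG0, hCG⟩ := hGS
  refine ⟨4 * CG + 8, 16, by positivity, fun A W Q X hX hW hQ hF40 hLA hMS n n' hn hnn hn' => ?_⟩
  have hW1 : 1 ≤ W := Nat.pos_of_ne_zero hW.ne_zero
  obtain ⟨F, hF⟩ : ∃ F, F = Q * W := ⟨_, rfl⟩
  have hF1 : 1 ≤ F := by rw [hF]; exact Nat.mul_pos hQ hW1
  have hXr : (16 : ℝ) ≤ X := by exact_mod_cast hX
  have hX0 : (0 : ℝ) < X := by linarith
  have hF40' : F ^ 40 ≤ X := by
    rw [hF]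
    exact_mod_cast hF40
  have hF1r : (1 : ℝ) ≤ F := by exact_mod_cast hF1
  have hFlt : F < X := by
    rcases hF1.eq_or_lt with h | h
    · rw [← h]; omega
    · calc F = F ^ 1 := (pow_one F).symm
        _ < F ^ 40 := Nat.pow_lt_pow_right h (by norm_num)
        _ ≤ X := hF40'
  have h2F4 : 2 * F ^ 4 ≤ X := by
    rcases hF1.eq_or_lt with h | h
    · rw [← h]; omega
    · calc 2 * F ^ 4 ≤ F * F ^ 4 := Nat.mul_le_mul_right _ h
        _ = F ^ 5 := by ring
        _ ≤ F ^ 40 := Nat.pow_le_pow_right hF1 (by norm_num)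
        _ ≤ X := hF40'
  have hWF : (W : ℝ) ≤ F := by
    rw [hF]
    exact_mod_cast Nat.le_mul_of_pos_left W hQ
  have hMS' := (hMS n n' hn hnn hn').1
  rw [← hF] at hMS'
  have hlogF : Real.log ((Q : ℝ) * W) = Real.log F := by rw [hF]; push_cast; rfl
  rw [hlogF]
  have hlogF0 : 0 ≤ Real.log F := Real.log_nonneg hF1r
  have hL0 : 0 < Real.log X := Real.log_pos (by linarith)
  obtain ⟨δ, hδ⟩ : ∃ δ : ℝ, δ = (F : ℝ) / X := ⟨_, rfl⟩
  have hδ0 : 0 ≤ δ := by rw [hδ]; positivity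
  rw [← hδ] at hMS'
  -- the functions
  let g : ℝ → ℂ := fun α => ∑ u ∈ Ioc n n', (((wt u - md W (Q * W) u : ℝ)) : ℂ) * ee (u * α)
  have hg : Continuous g := continuous_trig _ _
  have hgper : ∀ x, g (x + 1) = g x := fun x => Finset.sum_congr rfl fun u _ => by rw [ee_nat_mul_add_one]
  have h1 := maj_int Q W X (by omega) hQ hW1 (by rw [← hF]; exact hFlt) (fun α => ‖g α‖ ^ 2) (fun x => by positivity)
    (by fun_prop) (fun x => by rw [hgper])
  rw [← hF, ← hδ] at h1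
  let Af : ℕ → ℕ → ℝ → ℂ := fun q r β => ∑ u ∈ Ioc n n', ((wt u : ℝ) : ℂ) * ee (u * ((r : ℝ) / q + β)) -
      (((ArithmeticFunction.moebius q : ℤ) : ℂ) / (Nat.totient q : ℂ)) * ∑ u ∈ Ioc n n', ee (u * β)
  let Bf : ℕ → ℕ → ℝ → ℂ := fun q r β => ∑ u ∈ Ioc n n', ((md W F u : ℝ) : ℂ) * ee (u * ((r : ℝ) / q + β)) -
      (((ArithmeticFunction.moebius q : ℤ) : ℂ) / (Nat.totient q : ℂ)) * ∑ u ∈ Ioc n n', ee (u * β)
  have hAc : ∀ q r : ℕ, Continuous (Af q r) := by
    intro q r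
    have e1 : Continuous fun β : ℝ => ∑ u ∈ Ioc n n', ((wt u : ℝ) : ℂ) * ee (u * ((r : ℝ) / q + β)) :=
      (continuous_trig (Ioc n n') (fun u => ((wt u : ℝ) : ℂ))).comp (continuous_const.add continuous_id)
    have e2 : Continuous fun β : ℝ => ∑ u ∈ Ioc n n', ee (u * β) := by
      refine continuous_finset_sum _ fun u _ => ?_
      exact continuous_ee.comp (continuous_const.mul continuous_id)
    exact e1.sub (continuous_const.mul e2)
  have hgAB : ∀ (q r : ℕ) (β : ℝ), g ((r : ℝ) / q + β) = Af q r β - Bf q r β := by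
    intro q r β
    have e : (∑ u ∈ Ioc n n', ((wt u : ℝ) : ℂ) * ee (u * ((r : ℝ) / q + β))) -
        (∑ u ∈ Ioc n n', ((md W F u : ℝ) : ℂ) * ee (u * ((r : ℝ) / q + β))) = g ((r : ℝ) / q + β) := by
      rw [← Finset.sum_sub_distrib]
      refine Finset.sum_congr rfl fun u _ => ?_
      rw [← hF]
      push_cast
      ring
    rw [← e]
    change _ = (_ - _) - (_ - _)
    ring
  obtain ⟨M, hM⟩ : ∃ M : ℝ, M = (W : ℝ) ^ 2 * (F : ℝ) ^ 3 := ⟨_, rfl⟩
  have hM0 : 0 ≤ M := by rw [hM]; positivity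
  have hB : ∀ q ∈ Icc 1 F, ∀ r : ℕ, r.Coprime q → ∀ β : ℝ, |β| ≤ δ → ‖Bf q r β‖ ≤ M := by
    intro q hq r hr β hβ
    rw [hM]
    refine hMODB W F q r n n' β hW hF1 (mem_Icc.1 hq).1 (mem_Icc.1 hq).2 hr ?_
    calc 2 * (W : ℝ) * (F : ℝ) ^ 2 * |β| ≤ 2 * (F : ℝ) * (F : ℝ) ^ 2 * δ := by gcongr
      _ = (2 * (F : ℝ) ^ 4) / X := by rw [hδ]; ring
      _ ≤ 1 := by
        rw [div_le_one hX0]
        exact_mod_cast h2F4
  -- pointwise bound integrated
  have h2 : ∀ q ∈ Icc 1 F, ∀ r ∈ (range q).filter (fun r => r.Coprime q),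
      ∫ β in (-δ)..δ, ‖g ((r : ℝ) / q + β)‖ ^ 2 ≤ 2 * (∫ β in (-δ)..δ, ‖Af q r β‖ ^ 2) + 4 * δ * M ^ 2 := by
    intro q hq r hr
    have hr' := (mem_filter.1 hr).2
    have hci : IntervalIntegrable (fun β => ‖Af q r β‖ ^ 2) volume (-δ) δ := ((hAc q r).norm.pow 2).intervalIntegrable _ _
    calc ∫ β in (-δ)..δ, ‖g ((r : ℝ) / q + β)‖ ^ 2 ≤ ∫ β in (-δ)..δ, (2 * ‖Af q r β‖ ^ 2 + 2 * M ^ 2) := by
          refine intervalIntegral.integral_mono_on (by linarith) ?_ ?_ fun β hβ => ?_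
          · exact ((hg.comp (continuous_const.add continuous_id)).norm.pow 2).intervalIntegrable _ _
          · exact ((continuous_const.mul ((hAc q r).norm.pow 2)).add continuous_const).intervalIntegrable _ _
          · rw [hgAB]
            refine (sq_sub_le _ _).trans ?_
            have hb := hB q hq r hr' β (abs_le.2 ⟨hβ.1, hβ.2⟩)
            have : ‖Bf q r β‖ ^ 2 ≤ M ^ 2 := by gcongr
            linarith
      _ = 2 * (∫ β in (-δ)..δ, ‖Af q r β‖ ^ 2) + 4 * δ * M ^ 2 := by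
          rw [intervalIntegral.integral_add (hci.const_mul 2) intervalIntegrable_const,
            intervalIntegral.integral_const_mul, intervalIntegral.integral_const, smul_eq_mul]
          ring
  -- sum over the fractions
  have h3 : ∑ q ∈ Icc 1 F, ∑ r ∈ (range q).filter (fun r => r.Coprime q), ∫ β in (-δ)..δ, ‖g ((r : ℝ) / q + β)‖ ^ 2 ≤
      2 * (∑ q ∈ Icc 1 F, ∑ r ∈ (range q).filter (fun r => r.Coprime q), ∫ β in (-δ)..δ, ‖Af q r β‖ ^ 2) +
        (F : ℝ) * (F : ℝ) * (4 * δ * M ^ 2) := by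
    calc _ ≤ ∑ q ∈ Icc 1 F, ∑ r ∈ (range q).filter (fun r => r.Coprime q),
          (2 * (∫ β in (-δ)..δ, ‖Af q r β‖ ^ 2) + 4 * δ * M ^ 2) :=
          Finset.sum_le_sum fun q hq => Finset.sum_le_sum fun r hr => h2 q hq r hr
      _ = 2 * (∑ q ∈ Icc 1 F, ∑ r ∈ (range q).filter (fun r => r.Coprime q), ∫ β in (-δ)..δ, ‖Af q r β‖ ^ 2) +
          ∑ q ∈ Icc 1 F, ∑ _r ∈ (range q).filter (fun r => r.Coprime q), 4 * δ * M ^ 2 := by
          rw [Finset.mul_sum, ← Finset.sum_add_distrib]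
          refine Finset.sum_congr rfl fun q _ => ?_
          rw [Finset.mul_sum, ← Finset.sum_add_distrib]
      _ ≤ _ := by
          have h4 : ∑ q ∈ Icc 1 F, ∑ _r ∈ (range q).filter (fun r => r.Coprime q), 4 * δ * M ^ 2 ≤
              ∑ _q ∈ Icc 1 F, (F : ℝ) * (4 * δ * M ^ 2) := by
            refine Finset.sum_le_sum fun q hq => ?_
            rw [Finset.sum_const, nsmul_eq_mul]
            have h5 : ((range q).filter (fun r => r.Coprime q)).card ≤ F :=
              (Finset.card_filter_le _ _).trans (by rw [card_range]; exact (mem_Icc.1 hq).2)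
            have h6 : (((range q).filter (fun r => r.Coprime q)).card : ℝ) ≤ F := by exact_mod_cast h5
            gcongr
          have h7 : ∑ _q ∈ Icc 1 F, (F : ℝ) * (4 * δ * M ^ 2) = (F : ℝ) * (F : ℝ) * (4 * δ * M ^ 2) := by
            rw [Finset.sum_const, nsmul_eq_mul, Nat.card_Icc]
            push_cast
            ring
          linarith
  have h4 : ∑ q ∈ Icc 1 F, ∑ r ∈ (range q).filter (fun r => r.Coprime q), ∫ β in (-δ)..δ, ‖Af q r β‖ ^ 2 ≤
      CG * (1 + Real.log F) * (X / Real.log X ^ A) := by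
    have hAi : ∀ q r : ℕ, IntervalIntegrable (fun β => ‖Af q r β‖ ^ 2) volume (-δ) δ := fun q r =>
      ((hAc q r).norm.pow 2).intervalIntegrable _ _
    have hDc : ∀ (f : ℕ) (χ : DirichletCharacter ℂ f), Continuous fun β : ℝ => DC χ n n' β := by
      intro f χ
      unfold DC
      exact continuous_trig (Ioc n n') _
    have hDi : ∀ (f : ℕ) (χ : DirichletCharacter ℂ f), IntervalIntegrable (fun β => ‖DC χ n n' β‖ ^ 2) volume (-δ) δ :=
      fun f χ => ((hDc f χ).norm.pow 2).intervalIntegrable _ _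
    calc ∑ q ∈ Icc 1 F, ∑ r ∈ (range q).filter (fun r => r.Coprime q), ∫ β in (-δ)..δ, ‖Af q r β‖ ^ 2
        = ∫ β in (-δ)..δ, ∑ q ∈ Icc 1 F, ∑ r ∈ (range q).filter (fun r => r.Coprime q), ‖Af q r β‖ ^ 2 := by
          rw [intervalIntegral.integral_finset_sum]
          · refine Finset.sum_congr rfl fun q _ => ?_
            rw [intervalIntegral.integral_finset_sum]
            exact fun r _ => hAi q r
          · intro q _
            exact (continuous_finset_sum _ fun r _ => (hAc q r).norm.pow 2).intervalIntegrable _ _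
      _ ≤ ∫ β in (-δ)..δ, CG * (1 + Real.log F) * ∑ f ∈ Icc 1 F, ((f : ℝ) / Nat.totient f) * ∑ χ ∈ prim f, ‖DC χ n n' β‖ ^ 2 := by
          refine intervalIntegral.integral_mono_on (by linarith) ?_ ?_ fun β _ => ?_
          · exact (continuous_finset_sum _ fun q _ => continuous_finset_sum _ fun r _ => (hAc q r).norm.pow 2).intervalIntegrable _ _
          · exact (continuous_const.mul (continuous_finset_sum _ fun f _ => continuous_const.mul
              (continuous_finset_sum _ fun χ _ => (hDc f χ).norm.pow 2))).intervalIntegrable _ _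
          · exact hCG F n n' β hF1 (hFlt.le.trans hn)
      _ = CG * (1 + Real.log F) * ∑ f ∈ Icc 1 F, ((f : ℝ) / Nat.totient f) * ∑ χ ∈ prim f, ∫ β in (-δ)..δ, ‖DC χ n n' β‖ ^ 2 := by
          rw [intervalIntegral.integral_const_mul, intervalIntegral.integral_finset_sum]
          · congr 1
            refine Finset.sum_congr rfl fun f _ => ?_
            rw [intervalIntegral.integral_const_mul, intervalIntegral.integral_finset_sum]
            exact fun χ _ => hDi f χ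
          · intro f _
            exact (continuous_const.mul (continuous_finset_sum _ fun χ _ => (hDc f χ).norm.pow 2)).intervalIntegrable _ _
      _ ≤ CG * (1 + Real.log F) * (X / Real.log X ^ A) := by gcongr
  -- the model error
  have h5 : (F : ℝ) * (F : ℝ) * (4 * δ * M ^ 2) ≤ 4 * (X / Real.log X ^ A) := by
    have hLA' : Real.log X ^ A ≤ X := by
      refine hLA.trans ?_
      conv_rhs => rw [← Real.rpow_one (X : ℝ)]
      exact Real.rpow_le_rpow_of_exponent_le (by linarith) (by norm_num)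
    have hF13 : (F : ℝ) ^ 13 ≤ X := by
      calc (F : ℝ) ^ 13 ≤ (F : ℝ) ^ 40 := pow_le_pow_right₀ hF1r (by norm_num)
        _ ≤ X := by exact_mod_cast hF40'
    have hLp : 0 < Real.log X ^ A := by positivity
    calc (F : ℝ) * (F : ℝ) * (4 * δ * M ^ 2) ≤ (F : ℝ) * (F : ℝ) * (4 * ((F : ℝ) / X) * ((F : ℝ) ^ 2 * (F : ℝ) ^ 3) ^ 2) := by
          rw [hδ, hM]
          gcongr
      _ = 4 * ((F : ℝ) ^ 13 / X) := by ring
      _ ≤ 4 * (X / X) := by gcongr
      _ = 4 * 1 := by rw [div_self hX0.ne']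
      _ ≤ 4 * (X / Real.log X ^ A) := by
          have : 1 ≤ X / Real.log X ^ A := by rwa [one_le_div hLp]
          gcongr
  have hfin : 0 ≤ X / Real.log X ^ A := by positivity
  calc ∫ α in Set.Icc (0 : ℝ) 1 ∩ Maj Q W X, ‖∑ u ∈ Ioc n n', (((wt u - md W (Q * W) u : ℝ)) : ℂ) * ee (u * α)‖ ^ 2
      ≤ 2 * ∑ q ∈ Icc 1 F, ∑ r ∈ (range q).filter (fun r => r.Coprime q), ∫ β in (-δ)..δ, ‖g ((r : ℝ) / q + β)‖ ^ 2 := h1
    _ ≤ 2 * (2 * (CG * (1 + Real.log F) * (X / Real.log X ^ A)) + 4 * (X / Real.log X ^ A)) := by linarith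
    _ ≤ (4 * CG + 8) * (1 + Real.log F) * (X / Real.log X ^ A) := by
        have : 0 ≤ Real.log F * (X / Real.log X ^ A) := by positivity
        nlinarith
    _ = (4 * CG + 8) * (1 + Real.log F) * X / Real.log X ^ A := by ring

end Pool.Agent.Q145.SZ
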