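import Pool.Agent.Q145.SZ.Stm2
import Pool.Agent.Y883.T3.Vin

set_option autoImplicit false

/-! Minor arcs for project SZ. -/

namespace Pool.Agent.Q272.SZ

open Finset Filter Complex
open Pool.Agent.H807R2.Dav (ee norm_ee)
open Pool.Agent.Q145.SZ

lemma wt_nonneg (u : ℕ) : 0 ≤ wt u := by
  unfold wt
  split_ifs with h
  · exact Real.log_nonneg (by exact_mod_cast h.one_lt.le)
  · exact le_rfl

lemma wt_le_vM (u : ℕ) : wt u ≤ ArithmeticFunction.vonMangoldt u := by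
  unfold wt
  split_ifs with h
  · rw [ArithmeticFunction.vonMangoldt_apply_prime h]
  · exact ArithmeticFunction.vonMangoldt_nonneg

lemma min_pp (n n' X : ℕ) (hX : 1 ≤ X) (h' : n' ≤ 3 * X) (α : ℝ) :
    ‖∑ u ∈ Ioc n n', (((ArithmeticFunction.vonMangoldt u : ℝ) : ℂ) - ((wt u : ℝ) : ℂ)) * ee (u * α)‖ ≤
      2 * √(3 * (X : ℝ)) * Real.log (3 * X) := by
  have h3 : (1 : ℝ) ≤ 3 * (X : ℝ) := by
    have : (1 : ℝ) ≤ X := by exact_mod_cast hX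
    linarith
  refine le_trans ?_ (Chebyshev.psi_sub_theta_le h3)
  refine (norm_sum_le _ _).trans ?_
  have e1 : ∀ u : ℕ, ‖(((ArithmeticFunction.vonMangoldt u : ℝ) : ℂ) - ((wt u : ℝ) : ℂ)) * ee (u * α)‖ =
      ArithmeticFunction.vonMangoldt u - wt u := by
    intro u
    rw [norm_mul, norm_ee, mul_one, ← Complex.ofReal_sub, Complex.norm_real, Real.norm_eq_abs,
      abs_of_nonneg (sub_nonneg.2 (wt_le_vM u))]
  rw [Finset.sum_congr rfl fun u _ => e1 u]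
  have hfl : ⌊3 * (X : ℝ)⌋₊ = 3 * X := by
    have : (3 * (X : ℝ)) = ((3 * X : ℕ) : ℝ) := by push_cast; ring
    rw [this, Nat.floor_natCast]
  have e2 : Chebyshev.psi (3 * (X : ℝ)) - Chebyshev.theta (3 * (X : ℝ)) =
      ∑ u ∈ Ioc 0 (3 * X), (ArithmeticFunction.vonMangoldt u - wt u) := by
    unfold Chebyshev.psi Chebyshev.theta
    rw [hfl, Finset.sum_sub_distrib, Finset.sum_filter]
    congr 1
  rw [e2]
  refine Finset.sum_le_sum_of_subset_of_nonneg ?_ fun u _ _ => sub_nonneg.2 (wt_le_vM u)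
  intro u hu
  rw [mem_Ioc] at hu ⊢
  omega

/-- one partial sum -/
lemma min_one : ∃ X₀ : ℕ, ∀ (W Q X N : ℕ) (α : ℝ), X₀ ≤ X → 1 ≤ W → Real.log X ^ 30 ≤ Q → (Q : ℝ) ≤ (X : ℝ) ^ (1 / 10 : ℝ) →
    X ≤ N → N ≤ 3 * X → α ∉ Maj Q W X →
    ‖∑ u ∈ Icc 1 N, ((ArithmeticFunction.vonMangoldt u : ℝ) : ℂ) * ee ((u : ℝ) * α)‖ ≤ 768 * X * Real.log X ^ 8 / √(Q : ℝ) := by
  obtain ⟨N0, hN0⟩ := Pool.Agent.Y883.T3.vin_pow
  obtain ⟨x1, hx1⟩ : ∃ x1 : ℕ, ∀ X : ℕ, x1 ≤ X → 3072 ≤ Real.log X := by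
    have := (Real.tendsto_log_atTop.comp tendsto_natCast_atTop_atTop).eventually (eventually_ge_atTop (3072 : ℝ))
    obtain ⟨x1, hx1⟩ := Filter.eventually_atTop.1 this
    exact ⟨x1, fun X hX => hx1 X hX⟩
  refine ⟨max (max N0 x1) 3, fun W Q X N α hX hW hQ1 hQ2 hN hN' hα => ?_⟩
  have hXN0 : N0 ≤ X := le_trans (le_trans (le_max_left _ _) (le_max_left _ _)) hX
  have hXx1 : x1 ≤ X := le_trans (le_trans (le_max_right _ _) (le_max_left _ _)) hX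
  have hX3 : 3 ≤ X := le_trans (le_max_right _ _) hX
  have hL := hx1 X hXx1
  have hX3r : (3 : ℝ) ≤ X := by exact_mod_cast hX3
  have hX0 : (0 : ℝ) < X := by linarith
  obtain ⟨L, hLdef⟩ : ∃ L, L = Real.log X := ⟨_, rfl⟩
  rw [← hLdef] at hL hQ1 ⊢
  have hL0 : 0 < L := by linarith
  have hQ0 : (0 : ℝ) < Q := lt_of_lt_of_le (by positivity) hQ1
  have hQ1' : (1 : ℝ) ≤ Q := le_trans (one_le_pow₀ (by linarith)) hQ1
  have hQn : 1 ≤ Q := by exact_mod_cast hQ1'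
  have hXp : (X : ℝ) ^ (1 / 10 : ℝ) ≤ X := by
    conv_rhs => rw [← Real.rpow_one (X : ℝ)]
    exact Real.rpow_le_rpow_of_exponent_le (by linarith) (by norm_num)
  have hQX : (Q : ℝ) ≤ X := hQ2.trans hXp
  -- Dirichlet
  obtain ⟨n₀, hn₀⟩ : ∃ n₀, n₀ = ⌊(X : ℝ) / Q⌋₊ := ⟨_, rfl⟩
  have hn1 : 0 < n₀ := by
    rw [hn₀]
    exact Nat.floor_pos.2 ((one_le_div hQ0).2 hQX)
  have hnle : (n₀ : ℝ) ≤ X / Q := by rw [hn₀]; exact Nat.floor_le (by positivity)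
  have hnlt : (X : ℝ) / Q < n₀ + 1 := by rw [hn₀]; exact Nat.lt_floor_add_one _
  obtain ⟨r, hr1, hr2⟩ := Real.exists_rat_abs_sub_le_and_den_le α hn1
  have hden : (0 : ℝ) < r.den := by exact_mod_cast r.den_pos
  have hrden : (r.den : ℝ) ≤ n₀ := by exact_mod_cast hr2
  have hrcast : ((r : ℚ) : ℝ) = (r.num : ℝ) / (r.den : ℕ) := by
    exact_mod_cast (Rat.cast_def (K := ℝ) r)
  have hn0p : (0 : ℝ) < (n₀ : ℝ) + 1 := by positivity
  -- `q > Q`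
  have hqQ : (Q : ℝ) < r.den := by
    by_contra hcon
    push Not at hcon
    apply hα
    refine ⟨r.den, r.den_pos, by exact_mod_cast hcon, W * r.num, ?_⟩
    have e1 : (r.den : ℝ) * W * α - (((W : ℤ) * r.num : ℤ) : ℝ) = (r.den : ℝ) * W * (α - r) := by
      rw [hrcast]
      push_cast
      field_simp
    have e2 : |(r.den : ℝ) * W * (α - r)| = (r.den : ℝ) * W * |α - r| := by
      rw [abs_mul, abs_of_nonneg (by positivity)]
    calc |(r.den : ℝ) * W * α - (((W : ℤ) * r.num : ℤ) : ℝ)| = (r.den : ℝ) * W * |α - r| := by rw [e1, e2]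
      _ ≤ (r.den : ℝ) * W * (1 / ((n₀ + 1) * r.den)) := by gcongr
      _ = W * (1 / ((n₀ : ℝ) + 1)) := by field_simp
      _ ≤ W * (1 / ((X : ℝ) / Q)) := by gcongr
      _ = W * Q / X := by field_simp
  -- parameters
  have hsQ : (1 : ℝ) ≤ √Q := Real.one_le_sqrt.2 hQ1'
  have hsQ0 : (0 : ℝ) < √Q := by linarith
  have hNX : (X : ℝ) ≤ N := by exact_mod_cast hN
  have hNX3 : (N : ℝ) ≤ 3 * X := by exact_mod_cast hN'
  have hN0' : (0 : ℝ) < N := by linarith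
  have hlogN : Real.log N ≤ 2 * L := by
    have h1 : Real.log N ≤ Real.log ((X : ℝ) * X) := Real.log_le_log hN0' (by nlinarith)
    rw [Real.log_mul hX0.ne' hX0.ne', ← hLdef] at h1
    linarith
  have hlogN0 : 0 ≤ Real.log N := Real.log_nonneg (by linarith)
  obtain ⟨K, hK⟩ : ∃ K, K = √(Q : ℝ) / (2 * L) ^ 8 := ⟨_, rfl⟩
  have h2L : (1 : ℝ) ≤ (2 * L) ^ 8 := one_le_pow₀ (by linarith)
  have h2L0 : (0 : ℝ) < (2 * L) ^ 8 := by linarith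
  have hK1 : 1 ≤ K := by
    rw [hK, one_le_div h2L0]
    apply Real.le_sqrt_of_sq_le
    refine le_trans ?_ hQ1
    have h1 : (2 * L) ^ 8 = 256 * L ^ 8 := by ring
    rw [h1]
    have h3 : (256 * L ^ 8) ^ 2 = 65536 * L ^ 16 := by ring
    rw [h3]
    have h4 : L ^ 30 = L ^ 14 * L ^ 16 := by ring
    rw [h4]
    have h5 : (65536 : ℝ) ≤ L ^ 14 := by
      calc (65536 : ℝ) ≤ 3072 ^ 14 := by norm_num
        _ ≤ L ^ 14 := by gcongr
    gcongr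
  have hK0 : 0 < K := by linarith
  have hKs : K ≤ √Q := by
    rw [hK]
    exact div_le_self hsQ0.le h2L
  have hsq : √(Q : ℝ) ≤ (X : ℝ) ^ (1 / 20 : ℝ) := by
    rw [Real.sqrt_eq_rpow]
    calc (Q : ℝ) ^ (1 / 2 : ℝ) ≤ ((X : ℝ) ^ (1 / 10 : ℝ)) ^ (1 / 2 : ℝ) := by gcongr
      _ = (X : ℝ) ^ (1 / 20 : ℝ) := by
        rw [← Real.rpow_mul hX0.le]; norm_num
  have hKN : K ≤ (N : ℝ) ^ (9 / 50 : ℝ) := by
    calc K ≤ (X : ℝ) ^ (1 / 20 : ℝ) := hKs.trans hsq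
      _ ≤ (X : ℝ) ^ (9 / 50 : ℝ) := Real.rpow_le_rpow_of_exponent_le (by linarith) (by norm_num)
      _ ≤ (N : ℝ) ^ (9 / 50 : ℝ) := by gcongr
  have hKL : K ^ 2 * Real.log N ^ 16 ≤ Q := by
    have h1 : Real.log N ^ 16 ≤ (2 * L) ^ 16 := by gcongr
    calc K ^ 2 * Real.log N ^ 16 ≤ K ^ 2 * (2 * L) ^ 16 := by gcongr
      _ = (Q : ℝ) := by
        rw [hK, div_pow, Real.sq_sqrt hQ0.le]
        have : ((2 * L) ^ 8) ^ 2 = (2 * L) ^ 16 := by ring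
        rw [this]
        field_simp
  have hlogNp : 0 < Real.log N := Real.log_pos (by linarith)
  have hKLp : 0 < K ^ 2 * Real.log N ^ 16 := by positivity
  have hq1 : K ^ 2 * Real.log N ^ 16 ≤ (r.den : ℕ) := hKL.trans hqQ.le
  have hq2 : ((r.den : ℕ) : ℝ) ≤ N / (K ^ 2 * Real.log N ^ 16) := by
    calc ((r.den : ℕ) : ℝ) ≤ X / Q := hrden.trans hnle
      _ ≤ N / Q := by gcongr
      _ ≤ N / (K ^ 2 * Real.log N ^ 16) := by gcongr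
  have hcop : IsCoprime r.num (r.den : ℤ) := by
    rw [Int.isCoprime_iff_gcd_eq_one]
    exact r.reduced
  have hα2 : |α - (r.num : ℝ) / (r.den : ℕ)| ≤ 1 / ((r.den : ℕ) : ℝ) ^ 2 := by
    rw [← hrcast]
    refine hr1.trans ?_
    rw [sq]
    gcongr
    linarith
  have h := hN0 N (hXN0.trans hN) K hK1 hKN r.den hq1 hq2 r.num hcop α hα2
  refine h.trans ?_
  calc (N : ℝ) / K ≤ 3 * X / K := by gcongr
    _ = 768 * X * L ^ 8 / √(Q : ℝ) := by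
      rw [hK]
      field_simp
      ring

lemma Ioc_sub (n n' : ℕ) (h : n ≤ n') (f : ℕ → ℂ) :
    ∑ u ∈ Ioc n n', f u = ∑ u ∈ Icc 1 n', f u - ∑ u ∈ Icc 1 n, f u := by
  rw [eq_sub_iff_add_eq]
  have h1 : ∀ m : ℕ, Icc 1 m = Ioc 0 m := fun m => by ext x; simp [mem_Icc, mem_Ioc]; omega
  rw [h1, h1, add_comm]
  exact Finset.sum_Ioc_consecutive f (Nat.zero_le _) h

end Pool.Agent.Q272.SZ

namespace Pool.Agent.Q145.SZ

open Finset Filter Complex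
open Pool.Agent.H807R2.Dav (ee norm_ee)
open Pool.Agent.Q272.SZ

theorem t_MIN : S_MIN := by
  obtain ⟨X1, hX1⟩ := min_one
  obtain ⟨x1, hx1⟩ : ∃ x1 : ℕ, ∀ X : ℕ, x1 ≤ X → 3072 ≤ Real.log X := by
    have := (Real.tendsto_log_atTop.comp tendsto_natCast_atTop_atTop).eventually (eventually_ge_atTop (3072 : ℝ))
    obtain ⟨x1, hx1⟩ := Filter.eventually_atTop.1 this
    exact ⟨x1, fun X hX => hx1 X hX⟩
  obtain ⟨x2, hx2⟩ : ∃ x2 : ℕ, ∀ X : ℕ, x2 ≤ X → 16 ≤ (X : ℝ) ^ (9 / 20 : ℝ) := by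
    have := ((tendsto_rpow_atTop (show (0 : ℝ) < 9 / 20 by norm_num)).comp
      tendsto_natCast_atTop_atTop).eventually (eventually_ge_atTop (16 : ℝ))
    obtain ⟨x1, hx1⟩ := Filter.eventually_atTop.1 this
    exact ⟨x1, fun X hX => hx1 X hX⟩
  refine ⟨max (max X1 x1) (max x2 3), fun W Q X n n' α hX hW hQ1 hQ2 hn hnn hn' hα => ?_⟩
  have hXX1 : X1 ≤ X := le_trans (le_trans (le_max_left _ _) (le_max_left _ _)) hX
  have hXx1 : x1 ≤ X := le_trans (le_trans (le_max_right _ _) (le_max_left _ _)) hX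
  have hXx2 : x2 ≤ X := le_trans (le_trans (le_max_left _ _) (le_max_right _ _)) hX
  have hX3 : 3 ≤ X := le_trans (le_trans (le_max_right _ _) (le_max_right _ _)) hX
  have hX3r : (3 : ℝ) ≤ X := by exact_mod_cast hX3
  have hX0 : (0 : ℝ) < X := by linarith
  have hA := hX1 W Q X n' α hXX1 hW hQ1 hQ2 (hn.trans hnn) hn' hα
  have hB := hX1 W Q X n α hXX1 hW hQ1 hQ2 hn (hnn.trans hn') hα
  have hC := min_pp n n' X (by omega) hn' α
  have hL := hx1 X hXx1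
  have h16 := hx2 X hXx2
  have hlog3 : Real.log (3 * (X : ℝ)) ≤ 2 * Real.log X := by
    have h1 : Real.log (3 * (X : ℝ)) ≤ Real.log ((X : ℝ) * X) := Real.log_le_log (by positivity) (by nlinarith)
    rw [Real.log_mul hX0.ne' hX0.ne'] at h1
    linarith
  obtain ⟨L, hLdef⟩ : ∃ L, L = Real.log X := ⟨_, rfl⟩
  rw [← hLdef] at hL hQ1 hA hB hlog3 ⊢
  have hL0 : 0 < L := by linarith
  have hQ0 : (0 : ℝ) < Q := lt_of_lt_of_le (by positivity) hQ1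
  have hsQ0 : 0 < √(Q : ℝ) := Real.sqrt_pos.2 hQ0
  have hsq : √(Q : ℝ) ≤ (X : ℝ) ^ (1 / 20 : ℝ) := by
    rw [Real.sqrt_eq_rpow]
    calc (Q : ℝ) ^ (1 / 2 : ℝ) ≤ ((X : ℝ) ^ (1 / 10 : ℝ)) ^ (1 / 2 : ℝ) := by gcongr
      _ = (X : ℝ) ^ (1 / 20 : ℝ) := by
        rw [← Real.rpow_mul hX0.le]; norm_num
  have key : ∑ u ∈ Ioc n n', ((wt u : ℝ) : ℂ) * ee (u * α) =
      (∑ u ∈ Icc 1 n', ((ArithmeticFunction.vonMangoldt u : ℝ) : ℂ) * ee ((u : ℝ) * α)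
        - ∑ u ∈ Icc 1 n, ((ArithmeticFunction.vonMangoldt u : ℝ) : ℂ) * ee ((u : ℝ) * α)) -
      ∑ u ∈ Ioc n n', (((ArithmeticFunction.vonMangoldt u : ℝ) : ℂ) - ((wt u : ℝ) : ℂ)) * ee (u * α) := by
    rw [← Ioc_sub n n' hnn, ← Finset.sum_sub_distrib]
    exact Finset.sum_congr rfl fun u _ => by ring
  rw [key]
  refine (norm_sub_le _ _).trans ((add_le_add ((norm_sub_le _ _).trans (add_le_add hA hB)) hC).trans ?_)
  have h1 : 768 * X * L ^ 8 / √(Q : ℝ) + 768 * X * L ^ 8 / √(Q : ℝ) ≤ (1 / 2) * (X * L ^ 9 / √(Q : ℝ)) := by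
    have e : 768 * X * L ^ 8 / √(Q : ℝ) + 768 * X * L ^ 8 / √(Q : ℝ) = (1 / 2) * (X * (L ^ 8 * 3072) / √(Q : ℝ)) := by ring
    rw [e]
    have e2 : L ^ 9 = L ^ 8 * L := by ring
    rw [e2]
    gcongr
  have h2 : 2 * √(3 * (X : ℝ)) * Real.log (3 * X) ≤ (1 / 2) * (X * L ^ 9 / √(Q : ℝ)) := by
    have hs3 : √(3 * (X : ℝ)) ≤ 2 * (X : ℝ) ^ (1 / 2 : ℝ) := by
      rw [← Real.sqrt_eq_rpow]
      rw [Real.sqrt_le_left (by positivity), mul_pow, Real.sq_sqrt hX0.le]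
      linarith
    have hl0 : 0 ≤ Real.log (3 * (X : ℝ)) := Real.log_nonneg (by linarith)
    have hstep : 2 * √(3 * (X : ℝ)) * Real.log (3 * X) ≤ 8 * (X : ℝ) ^ (1 / 2 : ℝ) * L := by
      calc 2 * √(3 * (X : ℝ)) * Real.log (3 * X) ≤ 2 * (2 * (X : ℝ) ^ (1 / 2 : ℝ)) * (2 * L) := by
            gcongr
        _ = 8 * (X : ℝ) ^ (1 / 2 : ℝ) * L := by ring
    refine hstep.trans ?_
    have h3 : (X : ℝ) ^ (19 / 20 : ℝ) ≤ X / √(Q : ℝ) := by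
      rw [le_div_iff₀ hsQ0]
      calc (X : ℝ) ^ (19 / 20 : ℝ) * √(Q : ℝ) ≤ (X : ℝ) ^ (19 / 20 : ℝ) * (X : ℝ) ^ (1 / 20 : ℝ) := by gcongr
        _ = X := by
          rw [← Real.rpow_add hX0]; norm_num
    have h4 : 16 * (X : ℝ) ^ (1 / 2 : ℝ) ≤ (X : ℝ) ^ (19 / 20 : ℝ) := by
      calc 16 * (X : ℝ) ^ (1 / 2 : ℝ) ≤ (X : ℝ) ^ (9 / 20 : ℝ) * (X : ℝ) ^ (1 / 2 : ℝ) := by gcongr
        _ = (X : ℝ) ^ (19 / 20 : ℝ) := by
          rw [← Real.rpow_add hX0]; norm_num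
    have h5 : L ≤ L ^ 9 := by
      calc L = L ^ 1 := (pow_one L).symm
        _ ≤ L ^ 9 := pow_le_pow_right₀ (by linarith) (by norm_num)
    calc 8 * (X : ℝ) ^ (1 / 2 : ℝ) * L = (1 / 2) * ((16 * (X : ℝ) ^ (1 / 2 : ℝ)) * L) := by ring
      _ ≤ (1 / 2) * ((X / √(Q : ℝ)) * L ^ 9) := by
        have := h4.trans h3
        gcongr
      _ = (1 / 2) * (X * L ^ 9 / √(Q : ℝ)) := by ring
  linarith

end Pool.Agent.Q145.SZ
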