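import Pool.Agent.Q145.SZ.Stm2

set_option autoImplicit false

/-! The truncated singular series on average (project SZ). -/

namespace Pool.Agent.Q272.SZ

open Finset Filter
open Pool.Agent.Q145.SZ

/-- Euler product over a squarefree number -/
lemma prod_one_add (f : ℕ → ℝ) (h1 : f 1 = 1) (hm : ∀ m n : ℕ, m.Coprime n → f (m * n) = f m * f n) (N : ℕ)
    (hN : Squarefree N) : ∏ p ∈ N.primeFactors, (1 + f p) = ∑ d ∈ N.divisors, f d := by
  let g : ArithmeticFunction ℝ := ⟨fun n => if n = 0 then 0 else f n, by simp⟩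
  have hg : ∀ n : ℕ, n ≠ 0 → g n = f n := fun n hn => by
    change (if n = 0 then 0 else f n) = f n
    rw [if_neg hn]
  have hgm : g.IsMultiplicative := by
    refine ⟨by rw [hg 1 one_ne_zero, h1], fun {m n} hmn => ?_⟩
    by_cases hm0 : m = 0
    · subst hm0
      simp
    by_cases hn0 : n = 0
    · subst hn0
      simp
    rw [hg _ (mul_ne_zero hm0 hn0), hg _ hm0, hg _ hn0, hm m n hmn]
  have h := hgm.prodPrimeFactors_one_add_of_squarefree hN
  rw [Finset.prod_congr rfl fun p hp => by rw [hg p (Nat.prime_of_mem_primeFactors hp).ne_zero]] at h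
  rw [h]
  exact Finset.sum_congr rfl fun d hd => hg d (Nat.pos_of_mem_divisors hd).ne'

/-- the divisors of `h` with their size -/
noncomputable def KK (h : ℕ) : ArithmeticFunction ℝ := ⟨fun d => if d ∣ h then (d : ℝ) else 0, by simp⟩

lemma KK_apply (h d : ℕ) : KK h d = if d ∣ h then (d : ℝ) else 0 := rfl

lemma KK_mult (h : ℕ) : (KK h).IsMultiplicative := by
  refine ⟨by rw [KK_apply]; simp, fun {m n} hmn => ?_⟩
  rw [KK_apply, KK_apply, KK_apply]
  by_cases h1 : m ∣ h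
  · by_cases h2 : n ∣ h
    · rw [if_pos h1, if_pos h2, if_pos (hmn.mul_dvd_of_dvd_of_dvd h1 h2)]
      push_cast
      ring
    · rw [if_neg h2, if_neg (fun h3 => h2 ((dvd_mul_left n m).trans h3)), mul_zero]
  · rw [if_neg h1, if_neg (fun h3 => h1 ((dvd_mul_right m n).trans h3)), zero_mul]

lemma rsum_eq (q h : ℕ) : rsum q h = (KK h * (ArithmeticFunction.moebius : ArithmeticFunction ℝ)) q := by
  rw [ArithmeticFunction.mul_apply,
    Nat.sum_divisorsAntidiagonal (fun a b => KK h a * (ArithmeticFunction.moebius : ArithmeticFunction ℝ) b)]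
  unfold rsum
  rw [Finset.sum_filter]
  refine Finset.sum_congr rfl fun d _ => ?_
  rw [KK_apply, ArithmeticFunction.intCoe_apply]
  split_ifs with hd
  · rfl
  · rw [zero_mul]

lemma rsum_mul (h m n : ℕ) (hmn : m.Coprime n) : rsum (m * n) h = rsum m h * rsum n h := by
  rw [rsum_eq, rsum_eq, rsum_eq]
  exact ((KK_mult h).mul ArithmeticFunction.isMultiplicative_moebius.intCast).map_mul_of_coprime hmn

lemma rsum_one (h : ℕ) : rsum 1 h = 1 := by
  rw [rsum_eq]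
  exact ((KK_mult h).mul ArithmeticFunction.isMultiplicative_moebius.intCast).map_one

lemma rsum_prime (p h : ℕ) (hp : p.Prime) : rsum p h = if p ∣ h then (p : ℝ) - 1 else -1 := by
  unfold rsum
  rw [hp.divisors, Finset.sum_filter, Finset.sum_pair hp.one_lt.ne]
  have h1 : p / p = 1 := Nat.div_self hp.pos
  rw [Nat.div_one, h1, ArithmeticFunction.moebius_apply_prime hp, ArithmeticFunction.moebius_apply_one]
  rw [if_pos (one_dvd h)]
  split_ifs <;> push_cast <;> ring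

lemma abs_moebius_le (n : ℕ) : |((ArithmeticFunction.moebius n : ℤ) : ℝ)| ≤ 1 := by
  have := ArithmeticFunction.abs_moebius_le_one (n := n)
  exact_mod_cast this

lemma abs_rsum_le (q h : ℕ) : |rsum q h| ≤ ∑ d ∈ q.divisors, if d ∣ h then (d : ℝ) else 0 := by
  unfold rsum
  rw [← Finset.sum_filter]
  refine (Finset.abs_sum_le_sum_abs _ _).trans (Finset.sum_le_sum fun d _ => ?_)
  rw [abs_mul, abs_of_nonneg (Nat.cast_nonneg d)]
  exact mul_le_of_le_one_right (Nat.cast_nonneg d) (abs_moebius_le _)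

lemma sum_rsum_le (q X : ℕ) : ∑ h ∈ Icc 1 X, |rsum q h| ≤ (q.divisors.card : ℝ) * X := by
  calc ∑ h ∈ Icc 1 X, |rsum q h| ≤ ∑ h ∈ Icc 1 X, ∑ d ∈ q.divisors, (if d ∣ h then (d : ℝ) else 0) :=
        Finset.sum_le_sum fun h _ => abs_rsum_le q h
    _ = ∑ d ∈ q.divisors, ∑ h ∈ Icc 1 X, (if d ∣ h then (d : ℝ) else 0) := Finset.sum_comm
    _ ≤ ∑ d ∈ q.divisors, (X : ℝ) := by
        refine Finset.sum_le_sum fun d hd => ?_
        have hd0 : 0 < d := Nat.pos_of_mem_divisors hd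
        rw [← Finset.sum_filter, Finset.sum_const, nsmul_eq_mul]
        have e1 : ((Icc 1 X).filter fun h => d ∣ h) = (Ioc 0 X).filter fun h => d ∣ h := by
          congr 1
        rw [e1, Nat.Ioc_filter_dvd_card_eq_div]
        have := Nat.div_mul_le_self X d
        exact_mod_cast this
    _ = (q.divisors.card : ℝ) * X := by rw [Finset.sum_const, nsmul_eq_mul]

/-- the terms of the singular series -/
noncomputable def gh (h q : ℕ) : ℝ := ((ArithmeticFunction.moebius q : ℤ) : ℝ) ^ 2 / (Nat.totient q : ℝ) ^ 2 * rsum q h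

lemma gh_one (h : ℕ) : gh h 1 = 1 := by
  unfold gh
  rw [rsum_one]
  simp

lemma gh_mul (h m n : ℕ) (hmn : m.Coprime n) : gh h (m * n) = gh h m * gh h n := by
  unfold gh
  rw [rsum_mul h m n hmn, Nat.totient_mul hmn,
    ArithmeticFunction.isMultiplicative_moebius.map_mul_of_coprime hmn]
  push_cast
  rw [mul_pow, mul_pow]
  by_cases hm : (Nat.totient m : ℝ) = 0
  · rw [hm]; simp
  by_cases hn : (Nat.totient n : ℝ) = 0
  · rw [hn]; simp
  field_simp

lemma gh_prime (h p : ℕ) (hp : p.Prime) :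
    1 + gh h p = if p ∣ h then (p : ℝ) / (p - 1) else 1 - 1 / ((p : ℝ) - 1) ^ 2 := by
  unfold gh
  rw [rsum_prime p h hp, ArithmeticFunction.moebius_apply_prime hp, Nat.totient_prime hp,
    Nat.cast_sub hp.one_lt.le]
  have h1 : (1 : ℝ) < p := by exact_mod_cast hp.one_lt
  have h2 : (p : ℝ) - 1 ≠ 0 := by
    have : 0 < (p : ℝ) - 1 := by linarith
    exact this.ne'
  split_ifs
  · push_cast
    field_simp
    ring
  · push_cast
    field_simp
    ring

/-- product of the primes in `(z, X]` -/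
def NP (z X : ℕ) : ℕ := ∏ p ∈ (Ioc z X).filter Nat.Prime, p

lemma pf_NP (z X : ℕ) : (NP z X).primeFactors = (Ioc z X).filter Nat.Prime := by
  unfold NP
  exact Nat.primeFactors_prod fun p hp => (mem_filter.1 hp).2

lemma sqf_NP (z X : ℕ) : Squarefree (NP z X) := by
  unfold NP
  exact Finset.squarefree_prod_of_pairwise_isCoprime
    (fun p hp q hq hpq => (Nat.coprime_iff_isRelPrime.1
      ((Nat.coprime_primes (mem_filter.1 hp).2 (mem_filter.1 hq).2).2 hpq)))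
    (fun p hp => (mem_filter.1 hp).2.squarefree)

lemma SP_eq (z X h : ℕ) : SP z X h = ∑ q ∈ (NP z X).divisors, gh h q := by
  rw [← prod_one_add (gh h) (gh_one h) (gh_mul h) _ (sqf_NP z X), pf_NP]
  unfold SP
  exact Finset.prod_congr rfl fun p hp => (gh_prime h p (mem_filter.1 hp).2).symm

lemma PW_ne (z : ℕ) : PW z ≠ 0 := NeZero.ne _

lemma coprime_PW {z q : ℕ} (hq : q ≠ 0) : q.Coprime (PW z) ↔ ∀ p : ℕ, p.Prime → p ∣ q → z < p := by
  constructor
  · intro h p hp hpq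
    by_contra hcon
    push Not at hcon
    have h1 : p ∣ PW z := by
      unfold PW
      exact Finset.dvd_prod_of_mem (fun p => p) (mem_filter.2 ⟨mem_Icc.2 ⟨hp.pos, hcon⟩, hp⟩)
    have h2 := Nat.dvd_gcd hpq h1
    rw [h] at h2
    exact hp.one_lt.ne' (Nat.dvd_one.1 h2)
  · intro h
    unfold PW
    apply Nat.Coprime.prod_right
    intro p hp
    rw [Nat.coprime_comm, (mem_filter.1 hp).2.coprime_iff_not_dvd]
    intro h1
    have := h p (mem_filter.1 hp).2 h1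
    have h3 := (mem_Icc.1 (mem_filter.1 hp).1).2
    omega

lemma SR_eq (z X R h : ℕ) (hR : R ≤ X) : SR (PW z) R h = ∑ q ∈ (NP z X).divisors.filter (fun q => q ≤ R), gh h q := by
  unfold SR
  have hsub : (NP z X).divisors.filter (fun q => q ≤ R) ⊆ (Icc 1 R).filter (fun q => q.Coprime (PW z)) := by
    intro q hq
    rw [mem_filter, Nat.mem_divisors] at hq
    obtain ⟨⟨h1, h2⟩, h3⟩ := hq
    have hq0 : 0 < q := Nat.pos_of_dvd_of_pos h1 (Nat.pos_of_ne_zero h2)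
    rw [mem_filter, mem_Icc]
    refine ⟨⟨hq0, h3⟩, (coprime_PW hq0.ne').2 fun p hp hpq => ?_⟩
    have h4 : p ∈ (NP z X).primeFactors := Nat.mem_primeFactors.2 ⟨hp, hpq.trans h1, h2⟩
    rw [pf_NP, mem_filter, mem_Ioc] at h4
    exact h4.1.1
  rw [← Finset.sum_subset hsub]
  · rfl
  · intro q hq hq2
    rw [mem_filter, mem_Icc] at hq
    obtain ⟨⟨h1, h2⟩, h3⟩ := hq
    change gh h q = 0
    unfold gh
    have hns : ¬ Squarefree q := by
      intro hs
      apply hq2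
      rw [mem_filter, Nat.mem_divisors]
      refine ⟨⟨?_, (sqf_NP z X).ne_zero⟩, h2⟩
      rw [← Nat.prod_primeFactors_of_squarefree hs]
      unfold NP
      apply Finset.prod_dvd_prod_of_subset
      intro p hp
      have hpp := Nat.prime_of_mem_primeFactors hp
      have hpd := Nat.dvd_of_mem_primeFactors hp
      rw [mem_filter, mem_Ioc]
      exact ⟨⟨(coprime_PW (by omega)).1 h3 p hpp hpd, (Nat.le_of_dvd h1 hpd).trans (h2.trans hR)⟩, hpp⟩
    rw [ArithmeticFunction.moebius_eq_zero_of_not_squarefree hns]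
    simp

/-- Rankin function -/
noncomputable def rk (q : ℕ) : ℝ := (q.divisors.card : ℝ) * (q : ℝ) ^ (3 / 4 : ℝ) / (Nat.totient q : ℝ) ^ 2

lemma rk_one : rk 1 = 1 := by unfold rk; simp

lemma rk_mul (m n : ℕ) (hmn : m.Coprime n) : rk (m * n) = rk m * rk n := by
  unfold rk
  rw [Nat.Coprime.card_divisors_mul hmn, Nat.totient_mul hmn]
  push_cast
  rw [Real.mul_rpow (Nat.cast_nonneg m) (Nat.cast_nonneg n)]
  by_cases hm : (Nat.totient m : ℝ) = 0
  · rw [hm]; simp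
  by_cases hn : (Nat.totient n : ℝ) = 0
  · rw [hn]; simp
  field_simp

lemma rk_nonneg (q : ℕ) : 0 ≤ rk q := by unfold rk; positivity

lemma rk_prime (p : ℕ) (hp : p.Prime) : rk p ≤ 8 * (1 / (p : ℝ) ^ (5 / 4 : ℝ)) := by
  unfold rk
  rw [hp.divisors, Finset.card_pair hp.one_lt.ne, Nat.totient_prime hp, Nat.cast_sub hp.one_lt.le]
  have h2 : (2 : ℝ) ≤ p := by exact_mod_cast hp.two_le
  have h0 : (0 : ℝ) < p := by linarith
  have h1 : (0 : ℝ) < (p : ℝ) - 1 := by linarith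
  push_cast
  rw [div_le_iff₀ (by positivity)]
  have e1 : (p : ℝ) ^ (3 / 4 : ℝ) = (p : ℝ) ^ 2 / (p : ℝ) ^ (5 / 4 : ℝ) := by
    rw [← Real.rpow_natCast (p : ℝ) 2, ← Real.rpow_sub h0]
    norm_num
  rw [e1]
  have h3 : (p : ℝ) ^ 2 ≤ 4 * ((p : ℝ) - 1) ^ 2 := by nlinarith
  have h4 : 0 < (p : ℝ) ^ (5 / 4 : ℝ) := Real.rpow_pos_of_pos h0 _
  calc 2 * ((p : ℝ) ^ 2 / (p : ℝ) ^ (5 / 4 : ℝ)) ≤ 2 * ((4 * ((p : ℝ) - 1) ^ 2) / (p : ℝ) ^ (5 / 4 : ℝ)) := by gcongr
    _ = _ := by ring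

lemma rankin : ∃ C : ℝ, 0 < C ∧ ∀ z X : ℕ, ∑ q ∈ (NP z X).divisors, rk q ≤ C := by
  have hs : Summable fun n : ℕ => 1 / (n : ℝ) ^ (5 / 4 : ℝ) := Real.summable_one_div_nat_rpow.2 (by norm_num)
  refine ⟨Real.exp (8 * ∑' n : ℕ, 1 / (n : ℝ) ^ (5 / 4 : ℝ)), Real.exp_pos _, fun z X => ?_⟩
  rw [← prod_one_add rk rk_one rk_mul _ (sqf_NP z X), pf_NP]
  calc ∏ p ∈ (Ioc z X).filter Nat.Prime, (1 + rk p) ≤ ∏ p ∈ (Ioc z X).filter Nat.Prime, Real.exp (8 * (1 / (p : ℝ) ^ (5 / 4 : ℝ))) := by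
        apply Finset.prod_le_prod
        · intro p _
          have := rk_nonneg p
          linarith
        · intro p hp
          have h1 := rk_prime p (mem_filter.1 hp).2
          have h2 := Real.add_one_le_exp (8 * (1 / (p : ℝ) ^ (5 / 4 : ℝ)))
          linarith
    _ = Real.exp (8 * ∑ p ∈ (Ioc z X).filter Nat.Prime, 1 / (p : ℝ) ^ (5 / 4 : ℝ)) := by
        rw [← Real.exp_sum, ← Finset.mul_sum]
    _ ≤ _ := by
        apply Real.exp_le_exp.2
        apply mul_le_mul_of_nonneg_left _ (by norm_num)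
        exact hs.sum_le_tsum _ fun n _ => by positivity

lemma tail_le : ∃ C : ℝ, 0 < C ∧ ∀ z X R : ℕ, 1 ≤ R →
    ∑ q ∈ (NP z X).divisors.filter (fun q => ¬ q ≤ R), (q.divisors.card : ℝ) / (Nat.totient q : ℝ) ^ 2 ≤ C / (R : ℝ) ^ (3 / 4 : ℝ) := by
  obtain ⟨C, hC0, hC⟩ := rankin
  refine ⟨C, hC0, fun z X R hR => ?_⟩
  have hRr : (0 : ℝ) < R := by exact_mod_cast hR
  have hRp : 0 < (R : ℝ) ^ (3 / 4 : ℝ) := Real.rpow_pos_of_pos hRr _
  rw [le_div_iff₀ hRp, Finset.sum_mul]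
  refine le_trans ?_ (hC z X)
  calc ∑ q ∈ (NP z X).divisors.filter (fun q => ¬ q ≤ R), (q.divisors.card : ℝ) / (Nat.totient q : ℝ) ^ 2 * (R : ℝ) ^ (3 / 4 : ℝ)
      ≤ ∑ q ∈ (NP z X).divisors.filter (fun q => ¬ q ≤ R), rk q := by
        refine Finset.sum_le_sum fun q hq => ?_
        have hqR : (R : ℝ) ≤ q := by exact_mod_cast (not_le.1 (mem_filter.1 hq).2).le
        unfold rk
        have : (R : ℝ) ^ (3 / 4 : ℝ) ≤ (q : ℝ) ^ (3 / 4 : ℝ) := by gcongr
        calc (q.divisors.card : ℝ) / (Nat.totient q : ℝ) ^ 2 * (R : ℝ) ^ (3 / 4 : ℝ)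
            ≤ (q.divisors.card : ℝ) / (Nat.totient q : ℝ) ^ 2 * (q : ℝ) ^ (3 / 4 : ℝ) := by gcongr
          _ = _ := by ring
    _ ≤ ∑ q ∈ (NP z X).divisors, rk q :=
        Finset.sum_le_sum_of_subset_of_nonneg (Finset.filter_subset _ _) fun q _ _ => rk_nonneg q

end Pool.Agent.Q272.SZ

namespace Pool.Agent.Q145.SZ

open Finset Filter
open Pool.Agent.Q272.SZ

theorem t_MODE : S_MODE := by
  obtain ⟨C, hC0, hC⟩ := tail_le
  obtain ⟨x1, hx1⟩ : ∃ x1 : ℕ, ∀ R : ℕ, x1 ≤ R → C ≤ (R : ℝ) ^ (1 / 4 : ℝ) := by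
    have := ((tendsto_rpow_atTop (show (0 : ℝ) < 1 / 4 by norm_num)).comp
      tendsto_natCast_atTop_atTop).eventually (eventually_ge_atTop C)
    obtain ⟨x1, hx1⟩ := Filter.eventually_atTop.1 this
    exact ⟨x1, fun X hX => hx1 X hX⟩
  refine ⟨max x1 1, fun z X R hR hRX hz => ?_⟩
  have hR1 : 1 ≤ R := le_trans (le_max_right _ _) hR
  have hRC := hx1 R (le_trans (le_max_left _ _) hR)
  have hRr : (0 : ℝ) < R := by exact_mod_cast hR1
  have hdiff : ∀ h : ℕ, |SR (PW z) R h - SP z X h| ≤ ∑ q ∈ (NP z X).divisors.filter (fun q => ¬ q ≤ R), |rsum q h| / (Nat.totient q : ℝ) ^ 2 := by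
    intro h
    rw [SR_eq z X R h hRX, SP_eq, ← Finset.sum_filter_add_sum_filter_not (NP z X).divisors (fun q => q ≤ R)]
    rw [sub_add_cancel_left, abs_neg]
    refine (Finset.abs_sum_le_sum_abs _ _).trans (Finset.sum_le_sum fun q _ => ?_)
    unfold gh
    rw [abs_mul, abs_div, abs_pow, abs_of_nonneg (show (0 : ℝ) ≤ (Nat.totient q : ℝ) ^ 2 by positivity)]
    have h1 : |((ArithmeticFunction.moebius q : ℤ) : ℝ)| ^ 2 ≤ 1 := pow_le_one₀ (abs_nonneg _) (abs_moebius_le q)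
    calc |((ArithmeticFunction.moebius q : ℤ) : ℝ)| ^ 2 / (Nat.totient q : ℝ) ^ 2 * |rsum q h|
        ≤ 1 / (Nat.totient q : ℝ) ^ 2 * |rsum q h| := by gcongr
      _ = _ := by ring
  calc ∑ h ∈ Icc 1 X, |SR (PW z) R h - SP z X h|
      ≤ ∑ h ∈ Icc 1 X, ∑ q ∈ (NP z X).divisors.filter (fun q => ¬ q ≤ R), |rsum q h| / (Nat.totient q : ℝ) ^ 2 :=
        Finset.sum_le_sum fun h _ => hdiff h
    _ = ∑ q ∈ (NP z X).divisors.filter (fun q => ¬ q ≤ R), (∑ h ∈ Icc 1 X, |rsum q h|) / (Nat.totient q : ℝ) ^ 2 := by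
        rw [Finset.sum_comm]
        exact Finset.sum_congr rfl fun q _ => by rw [Finset.sum_div]
    _ ≤ ∑ q ∈ (NP z X).divisors.filter (fun q => ¬ q ≤ R), X * ((q.divisors.card : ℝ) / (Nat.totient q : ℝ) ^ 2) := by
        refine Finset.sum_le_sum fun q _ => ?_
        have := sum_rsum_le q X
        calc (∑ h ∈ Icc 1 X, |rsum q h|) / (Nat.totient q : ℝ) ^ 2 ≤ ((q.divisors.card : ℝ) * X) / (Nat.totient q : ℝ) ^ 2 := by gcongr
          _ = _ := by ring
    _ = X * ∑ q ∈ (NP z X).divisors.filter (fun q => ¬ q ≤ R), ((q.divisors.card : ℝ) / (Nat.totient q : ℝ) ^ 2) := by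
        rw [Finset.mul_sum]
    _ ≤ X * (C / (R : ℝ) ^ (3 / 4 : ℝ)) := by
        have := hC z X R hR1
        gcongr
    _ ≤ X * ((R : ℝ) ^ (1 / 4 : ℝ) / (R : ℝ) ^ (3 / 4 : ℝ)) := by gcongr
    _ = X / √(R : ℝ) := by
        rw [← Real.rpow_sub hRr]
        have e : (1 / 4 - 3 / 4 : ℝ) = -(1 / 2) := by norm_num
        rw [e, Real.rpow_neg hRr.le, Real.sqrt_eq_rpow]
        rfl

end Pool.Agent.Q145.SZ
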