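import Pool.Agent.Q145.SZ.Stm3
import Pool.Agent.Erdos456.Mertens

set_option autoImplicit false

/-! Mertens bounds for project SZ. -/

namespace Pool.Agent.Q272.SZ

open Finset Filter
open Pool.Agent.Q145.SZ

/-- the primes up to `z` -/
abbrev Pz (z : ℕ) : Finset ℕ := (Icc 1 z).filter Nat.Prime

lemma pf_PW (z : ℕ) : (PW z).primeFactors = Pz z := by
  unfold PW
  exact Nat.primeFactors_prod fun p hp => (mem_filter.1 hp).2

lemma PW_pos (z : ℕ) : 0 < PW z := Nat.pos_of_ne_zero (NeZero.ne _)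

lemma sqf_PW (z : ℕ) : Squarefree (PW z) := by
  unfold PW
  exact Finset.squarefree_prod_of_pairwise_isCoprime
    (fun p hp q hq hpq => (Nat.coprime_iff_isRelPrime.1
      ((Nat.coprime_primes (mem_filter.1 hp).2 (mem_filter.1 hq).2).2 hpq)))
    (fun p hp => (mem_filter.1 hp).2.squarefree)

lemma vv_PW (z : ℕ) : vv (PW z) = ∏ p ∈ Pz z, (1 - (p : ℝ)⁻¹)⁻¹ := by
  unfold vv
  have h := Nat.totient_eq_mul_prod_factors (PW z)
  have h2 : ((Nat.totient (PW z) : ℕ) : ℝ) = (PW z : ℝ) * ∏ p ∈ (PW z).primeFactors, (1 - (p : ℝ)⁻¹) := by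
    have h3 := congrArg (fun x : ℚ => (x : ℝ)) h
    push_cast at h3
    exact h3
  rw [h2, pf_PW, Finset.prod_inv_distrib]
  have h3 : (PW z : ℝ) ≠ 0 := by exact_mod_cast (PW_pos z).ne'
  rw [div_mul_eq_div_div, div_self h3, one_div]

lemma sum_inv_le : ∃ C : ℝ, 0 ≤ C ∧ ∀ z : ℕ, 2 ≤ z → ∑ p ∈ Pz z, 1 / (p : ℝ) ≤ Real.log (Real.log z) + C := by
  obtain ⟨C, hC⟩ := Pool.Agent.Erdos456.Mert.mertens_inv
  have hll : -1 ≤ Real.log (Real.log 2) := by
    have h1 : (0.5 : ℝ) ≤ Real.log 2 := by have := Real.log_two_gt_d9; linarith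
    have h2 : Real.log (1 / 2) ≤ Real.log (Real.log 2) := Real.log_le_log (by norm_num) (by linarith)
    have h3 : Real.log (1 / 2) = - Real.log 2 := by rw [one_div, Real.log_inv]
    have h4 := Real.log_two_lt_d9
    linarith
  refine ⟨max C 2, le_max_of_le_right (by norm_num), fun z hz => ?_⟩
  rcases Nat.lt_or_ge z 3 with h | h
  · have : z = 2 := by omega
    subst this
    have e : Pz 2 = {2} := by decide
    rw [e, Finset.sum_singleton]
    have := le_max_right C 2
    push_cast
    linarith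
  · have h1 := (abs_le.1 (hC z h)).2
    have := le_max_left C 2
    linarith

lemma sum_tel (z : ℕ) : ∑ p ∈ Pz z, 1 / ((p : ℝ) * (p - 1)) ≤ 1 := by
  have h1 : ∑ p ∈ Pz z, 1 / ((p : ℝ) * (p - 1)) ≤ ∑ k ∈ Ioc 1 (z + 1), 1 / ((k : ℝ) * (k - 1)) := by
    apply Finset.sum_le_sum_of_subset_of_nonneg
    · intro p hp
      have h1 := (mem_filter.1 hp).2.one_lt
      have h2 := (mem_Icc.1 (mem_filter.1 hp).1).2
      rw [mem_Ioc]
      omega
    · intro k hk _
      have : (1 : ℝ) < k := by exact_mod_cast (mem_Ioc.1 hk).1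
      have : 0 < (k : ℝ) - 1 := by linarith
      positivity
  have h2 : ∀ n : ℕ, 1 ≤ n → ∑ k ∈ Ioc 1 n, 1 / ((k : ℝ) * (k - 1)) = 1 - 1 / n := by
    intro n hn
    induction n, hn using Nat.le_induction with
    | base => simp
    | succ n hn ih =>
      rw [← Finset.insert_Ioc_right_eq_Ioc_add_one hn, Finset.sum_insert (by simp), ih]
      have : (0 : ℝ) < n := by exact_mod_cast hn
      push_cast
      rw [add_sub_cancel_right]
      field_simp
      ring
  have h3 : (0 : ℝ) ≤ 1 / ((z + 1 : ℕ) : ℝ) := by positivity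
  rw [h2 (z + 1) (by omega)] at h1
  linarith

end Pool.Agent.Q272.SZ

namespace Pool.Agent.Q145.SZ

open Finset Filter
open Pool.Agent.Q272.SZ

theorem t_PWC : S_PWC := by
  obtain ⟨C, hC0, hC⟩ := sum_inv_le
  refine ⟨Real.exp (18 * C + 1), Real.exp_pos _, fun z hz => ?_⟩
  have hz2 : (2 : ℝ) ≤ z := by exact_mod_cast hz
  have hl : 0 < Real.log z := Real.log_pos (by linarith)
  have hS := hC z hz
  have hT := sum_tel z
  have hp2 : ∀ p ∈ Pz z, (2 : ℝ) ≤ p := fun p hp => by exact_mod_cast (mem_filter.1 hp).2.two_le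
  constructor
  · rw [vv_PW]
    calc ∏ p ∈ Pz z, (1 - (p : ℝ)⁻¹)⁻¹ ≤ ∏ p ∈ Pz z, Real.exp (1 / (p : ℝ) + 1 / ((p : ℝ) * (p - 1))) := by
          apply Finset.prod_le_prod
          · intro p hp
            have := hp2 p hp
            have h1 : (p : ℝ)⁻¹ ≤ 1 := inv_le_one_of_one_le₀ (by linarith)
            exact inv_nonneg.2 (by linarith)
          · intro p hp
            have h2 := hp2 p hp
            have h0 : (0 : ℝ) < p := by linarith
            have h1 : (0 : ℝ) < (p : ℝ) - 1 := by linarith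
            have e1 : (1 - (p : ℝ)⁻¹)⁻¹ = (1 / (p : ℝ) + 1 / ((p : ℝ) * (p - 1))) + 1 := by
              field_simp
              ring
            rw [e1]
            exact Real.add_one_le_exp _
      _ = Real.exp (∑ p ∈ Pz z, 1 / (p : ℝ) + ∑ p ∈ Pz z, 1 / ((p : ℝ) * (p - 1))) := by
          rw [← Real.exp_sum, Finset.sum_add_distrib]
      _ ≤ Real.exp (Real.log (Real.log z) + (18 * C + 1)) := by
          apply Real.exp_le_exp.2
          linarith
      _ = Real.exp (18 * C + 1) * Real.log z := by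
          rw [Real.exp_add, Real.exp_log hl, mul_comm]
  · unfold C18
    rw [pf_PW]
    calc ∏ p ∈ Pz z, (1 + 18 / (p : ℝ)) ≤ ∏ p ∈ Pz z, Real.exp (18 * (1 / (p : ℝ))) := by
          apply Finset.prod_le_prod
          · intro p hp
            have := hp2 p hp
            positivity
          · intro p hp
            have := Real.add_one_le_exp (18 * (1 / (p : ℝ)))
            have e : 18 / (p : ℝ) = 18 * (1 / (p : ℝ)) := by ring
            rw [e]
            linarith
      _ = Real.exp (18 * ∑ p ∈ Pz z, 1 / (p : ℝ)) := by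
          rw [← Real.exp_sum, ← Finset.mul_sum]
      _ ≤ Real.exp (18 * Real.log (Real.log z) + (18 * C + 1)) := by
          apply Real.exp_le_exp.2
          linarith
      _ = Real.exp (18 * C + 1) * Real.log z ^ 18 := by
          rw [Real.exp_add, mul_comm (Real.exp (18 * Real.log (Real.log z)))]
          congr 1
          have : (18 : ℝ) * Real.log (Real.log z) = ((18 : ℕ) : ℝ) * Real.log (Real.log z) := by norm_num
          rw [this, Real.exp_nat_mul, Real.exp_log hl]

end Pool.Agent.Q145.SZ
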